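import Pool.Agent.W633.LT.Stm2

/-!
# Final assembly for the log K-theory project
-/

set_option autoImplicit false

namespace Pool.Agent.W135.LG

open W633.LT

/-- all ingredients -/
structure Hyp : Prop where
  hA : FamAdd
  hS : FamStab
  hT : FamTwist
  hG : MGood
  hM : MToFam
  r1 : RExist
  r2 : RExact
  r3 : RIndep
  r4 : RTwist
  r5 : RChain
  w : WVal
  x : XExist
  t : Tent
  c : Comb

section
variable {k : Type} [Field k] {S : Subdiv}

/-- `p` is the pair of invariants of the fibre at `v` -/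
def IsVal (E : Bundle0 k S) (v : ℚ) (p : ℤ × ℤ) : Prop :=
  ∃ (l r : ℚ) (h : Adm S v l r) (N : MFam k) (φ : ∀ b c, E.mod (fibChart h b c) →+ N.mod b c),
    IsFib E h N φ ∧ p = (N.toFam.e, N.toFam.deg 1)

open Classical in
/-- the pair of invariants of the fibre at `v` -/
noncomputable def val (E : Bundle0 k S) (v : ℚ) : ℤ × ℤ :=
  if h : ∃ p, IsVal E v p then h.choose else 0

lemma isVal_unique (H : Hyp) {E : Bundle0 k S} {v : ℚ} {p p' : ℤ × ℤ}
    (h : IsVal E v p) (h' : IsVal E v p') : p = p' := by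
  obtain ⟨l, r, hl, N, φ, hN, rfl⟩ := h
  obtain ⟨l', r', hl', N', φ', hN', rfl⟩ := h'
  have ht := H.r3 k S E v l r l' r' hl hl' N N' φ φ' hN hN'
  obtain ⟨h1, h2⟩ := H.hT k _ _ 0 0 (H.hG k N) (H.hG k N') ((H.hM k).2 N N' 0 0 ht)
  rw [Prod.mk.injEq]
  refine ⟨?_, (h2 1).symm⟩
  rw [h1]; simp

lemma val_eq (H : Hyp) {E : Bundle0 k S} {v : ℚ} {p : ℤ × ℤ} (h : IsVal E v p) :
    val E v = p := by
  have h' : ∃ p, IsVal E v p := ⟨p, h⟩
  unfold val
  rw [dif_pos h']
  exact isVal_unique H h'.choose_spec h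

lemma val_fib (H : Hyp) {E : Bundle0 k S} {v l r : ℚ} (h : Adm S v l r) {N : MFam k}
    {φ : ∀ b c, E.mod (fibChart h b c) →+ N.mod b c} (hN : IsFib E h N φ) :
    val E v = (N.toFam.e, N.toFam.deg 1) :=
  val_eq H ⟨l, r, h, N, φ, hN, rfl⟩

lemma val_add (H : Hyp) {E' E E'' : Bundle0 k S} (hE : IsExact0 E' E E'') (v : ℚ) :
    val E v = val E' v + val E'' v := by
  obtain ⟨l, r, h⟩ := H.c.1 S v
  obtain ⟨N', φ', hN'⟩ := H.r1 k S E' v l r h
  obtain ⟨N, φ, hN⟩ := H.r1 k S E v l r h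
  obtain ⟨N'', φ'', hN''⟩ := H.r1 k S E'' v l r h
  have h1 := (H.hM k).1 _ _ _ (H.r2 k S E' E E'' v l r h N' N N'' φ' φ φ'' hE hN' hN hN'')
  obtain ⟨h2, h3⟩ := H.hA k _ _ _ (H.hG k N') (H.hG k N) (H.hG k N'') h1
  rw [val_fib H h hN, val_fib H h hN', val_fib H h hN'', h2, h3 1]
  rfl

lemma del_chain (H : Hyp) (E : Bundle0 k S) {v w : ℚ} (hvw : v < w)
    (hno : ∀ q ∈ S.pts, ¬ (v < q ∧ q < w)) : (val E v).2 = (val E w).2 := by
  obtain ⟨l0, r', a1⟩ := H.c.1 S v
  obtain ⟨l', r0, a2⟩ := H.c.1 S w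
  have h : Adm S v l0 w := ⟨a1.lv, hvw, a1.left, hno⟩
  have h' : Adm S w v r0 := ⟨hvw, a2.vr, hno, a2.right⟩
  obtain ⟨N, φ, hN⟩ := H.r1 k S E v l0 w h
  obtain ⟨N', φ', hN'⟩ := H.r1 k S E w v r0 h'
  rw [val_fib H h hN, val_fib H h' hN']
  have h1 := H.r5 k S E l0 v w r0 h h' N N' φ φ' hN hN'
  have h2 := (H.hS k N'.toFam (H.hG k N')).2
  exact h1.trans h2.symm

lemma del_per (H : Hyp) (E : Bundle0 k S) (v : ℚ) : (val E v).2 = (val E (v + 2)).2 :=
  H.c.2 S (fun v => (val E v).2) (fun _ _ hlr hno => del_chain H E hlr hno) v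

lemma cov_exact {E' E E'' : Bundle k S} (h : IsExact E' E E'') :
    IsExact0 E'.cov E.cov E''.cov := by
  obtain ⟨f, g, h1, h2, h3⟩ := h
  exact ⟨f, g, fun h e => h1 h e, fun h e => h2 h e, h3⟩

lemma val_pull (H : Hyp) {S' : Subdiv} (hS : S.pts ⊆ S'.pts) (E : Bundle k S) (v : ℚ) :
    val (E.pull hS).cov v = val E.cov v := by
  obtain ⟨l, r, h'⟩ := H.c.1 S' v
  have h : Adm S v l r :=
    ⟨h'.lv, h'.vr, fun q hq => h'.left q (hS hq), fun q hq => h'.right q (hS hq)⟩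
  obtain ⟨N, φ, hN⟩ := H.r1 k S' (E.pull hS).cov v l r h'
  rw [val_fib H h' hN]
  have hfib : IsFib E.cov h N (fun b c => (φ b c : E.cov.mod (fibChart h b c) →+ N.mod b c)) :=
    ⟨fun b c => hN.bc b c, fun hb hc e => hN.comm hb hc e⟩
  exact (val_fib H h hfib).symm

lemma cov_twist {a : PL S} {E F : Bundle k S} (h : IsTwist a E F) :
    IsTwist0 a.lift E.cov F.cov := by
  obtain ⟨φ, hφ⟩ := h
  refine ⟨φ, fun {x y} h e => ?_⟩
  have := hφ h e
  rw [deck_zero] at this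
  exact this

lemma den_dvd (v : ℚ) (A B A' B' : ℤ) (h : (A : ℚ) * v + B = A' * v + B') :
    (v.den : ℤ) ∣ A - A' := by
  have hd : (v.den : ℚ) ≠ 0 := by exact_mod_cast v.den_nz
  have hv : v * v.den = v.num := Rat.mul_den_eq_num v
  have h1 : ((A - A' : ℤ) : ℚ) * v.num + (B - B' : ℤ) * v.den = 0 := by
    rw [← hv]
    push_cast
    linear_combination (v.den : ℚ) * h
  have h2 : (A - A') * v.num + (B - B') * v.den = 0 := by exact_mod_cast h1
  have h3 : (v.den : ℤ) ∣ (A - A') * v.num := ⟨-(B - B'), by linarith⟩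
  have hco : IsCoprime (v.den : ℤ) v.num := by
    have := v.reduced
    rw [Int.isCoprime_iff_gcd_eq_one, Int.gcd_comm]
    simpa [Int.gcd] using this
  exact hco.dvd_of_dvd_mul_right h3

lemma slope_eq {x y : ℚ} (hxy : x < y) {A B A' B' : ℤ} (h : (A : ℚ) * x + B = A' * x + B')
    (h' : (A : ℚ) * y + B = A' * y + B') : A = A' := by
  have h1 : ((A : ℚ) - A') * (y - x) = 0 := by linear_combination h' - h
  rcases mul_eq_zero.1 h1 with h2 | h2
  · exact_mod_cast sub_eq_zero.1 h2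
  · exact absurd h2 (by linarith)

/-- charts from intervals -/
def ivl {l r : ℚ} (hlr : l ≤ r) (h : ∀ q ∈ S.pts, ¬ (l < q ∧ q < r)) : Chart S :=
  ⟨⟨0, 0, l, r⟩, hlr, h⟩

lemma pts_add (S : Subdiv) (q : ℚ) : q + 2 ∈ S.pts ↔ q ∈ S.pts := (S.periodic q).symm

lemma pts_sub (S : Subdiv) (q : ℚ) : q - 2 ∈ S.pts ↔ q ∈ S.pts := by
  have := S.periodic (q - 2)
  rwa [sub_add_cancel] at this

lemma adm_add {v l r : ℚ} (h : Adm S v l r) : Adm S (v + 2) (l + 2) (r + 2) := by
  refine ⟨by linarith [h.lv], by linarith [h.vr], fun q hq hq' => ?_, fun q hq hq' => ?_⟩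
  · exact h.left (q - 2) ((pts_sub S q).2 hq) ⟨by linarith [hq'.1], by linarith [hq'.2]⟩
  · exact h.right (q - 2) ((pts_sub S q).2 hq) ⟨by linarith [hq'.1], by linarith [hq'.2]⟩

lemma adm_sub {v l r : ℚ} (h : Adm S (v + 2) l r) : Adm S v (l - 2) (r - 2) := by
  refine ⟨by linarith [h.lv], by linarith [h.vr], fun q hq hq' => ?_, fun q hq hq' => ?_⟩
  · exact h.left (q + 2) ((pts_add S q).2 hq) ⟨by linarith [hq'.1], by linarith [hq'.2]⟩
  · exact h.right (q + 2) ((pts_add S q).2 hq) ⟨by linarith [hq'.1], by linarith [hq'.2]⟩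

/-- the degree of the twist -/
def dd (m : ℚ → ℚ → ℤ × ℤ) (v l r : ℚ) : ℤ :=
  ((m l v).1 - (m v v).1) / v.den - ((m v r).1 - (m v v).1) / v.den

lemma lift_left {fn : ℚ → ℚ} {m : ℚ → ℚ → ℤ × ℤ} (hm : IsLift S fn m) {v l r : ℚ}
    (h : Adm S v l r) : ∀ q, l ≤ q → q ≤ v → fn q = (m l v).1 * q + (m l v).2 :=
  hm (ivl h.lv.le h.left)

lemma lift_right {fn : ℚ → ℚ} {m : ℚ → ℚ → ℤ × ℤ} (hm : IsLift S fn m) {v l r : ℚ}
    (h : Adm S v l r) : ∀ q, v ≤ q → q ≤ r → fn q = (m v r).1 * q + (m v r).2 :=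
  hm (ivl h.vr.le h.right)

lemma lift_mid {fn : ℚ → ℚ} {m : ℚ → ℚ → ℤ × ℤ} (hm : IsLift S fn m) (v : ℚ) :
    fn v = (m v v).1 * v + (m v v).2 :=
  hm (ivl (S := S) le_rfl (fun _ _ hq => absurd hq.2 (not_lt.2 hq.1.le))) v le_rfl le_rfl

lemma dd_mul {fn : ℚ → ℚ} {m : ℚ → ℚ → ℤ × ℤ} (hm : IsLift S fn m) {v l r : ℚ}
    (h : Adm S v l r) : dd m v l r * v.den = (m l v).1 - (m v r).1 := by
  have e0 := lift_mid hm v
  have e1 := lift_left hm h v h.lv.le le_rfl
  have e2 := lift_right hm h v le_rfl h.vr.le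
  have d1 := den_dvd v _ _ _ _ (e1.symm.trans e0)
  have d2 := den_dvd v _ _ _ _ (e2.symm.trans e0)
  unfold dd
  rw [sub_mul, Int.ediv_mul_cancel d1, Int.ediv_mul_cancel d2]
  ring

lemma lift_isLift (a : PL S) : IsLift S a.fn a.lift := a.lift_eq

lemma dd_per (a : PL S) {v l r : ℚ} (h : Adm S v l r) :
    dd a.lift (v + 2) (l + 2) (r + 2) = dd a.lift v l r := by
  have h' := adm_add h
  have e1 := dd_mul (lift_isLift a) h
  have e2 := dd_mul (lift_isLift a) h'
  have s1 : (a.lift (l + 2) (v + 2)).1 = (a.lift l v).1 := by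
    have k1 := lift_left (lift_isLift a) h
    have k2 := lift_left (lift_isLift a) h'
    refine slope_eq (B := 2 * (a.lift (l + 2) (v + 2)).1 + (a.lift (l + 2) (v + 2)).2)
      (B' := (a.lift l v).2) h.lv ?_ ?_
    · rw [← k1 l le_rfl h.lv.le, ← a.periodic l, k2 (l + 2) le_rfl h'.lv.le]
      push_cast; ring
    · rw [← k1 v h.lv.le le_rfl, ← a.periodic v, k2 (v + 2) h'.lv.le le_rfl]
      push_cast; ring
  have s2 : (a.lift (v + 2) (r + 2)).1 = (a.lift v r).1 := by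
    have k1 := lift_right (lift_isLift a) h
    have k2 := lift_right (lift_isLift a) h'
    refine slope_eq (B := 2 * (a.lift (v + 2) (r + 2)).1 + (a.lift (v + 2) (r + 2)).2)
      (B' := (a.lift v r).2) h.vr ?_ ?_
    · rw [← k1 v le_rfl h.vr.le, ← a.periodic v, k2 (v + 2) le_rfl h'.vr.le]
      push_cast; ring
    · rw [← k1 r h.vr.le le_rfl, ← a.periodic r, k2 (r + 2) h'.vr.le le_rfl]
      push_cast; ring
  have hden : (v + 2).den = v.den := Rat.add_ofNat_den v 2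
  rw [s1, s2, hden, ← e1] at e2
  have hpos : (v.den : ℤ) ≠ 0 := by exact_mod_cast v.den_nz
  exact mul_right_cancel₀ hpos e2

lemma val_twist (H : Hyp) {a : PL S} {E F : Bundle k S} (h : IsTwist a E F) {v l r : ℚ}
    (hv : Adm S v l r) :
    (val F.cov v).1 = (val E.cov v).1 + dd a.lift v l r * (val E.cov v).2 := by
  obtain ⟨N, φ, hN⟩ := H.r1 k S E.cov v l r hv
  obtain ⟨N', φ', hN'⟩ := H.r1 k S F.cov v l r hv
  have h1 := H.r4 k S a.fn a.lift E.cov F.cov v l r hv N N' φ φ' (lift_isLift a) (cov_twist h)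
    hN hN'
  obtain ⟨h2, -⟩ := H.hT k _ _ _ _ (H.hG k N) (H.hG k N') ((H.hM k).2 _ _ _ _ h1)
  rw [val_fib H hv hN, val_fib H hv hN']
  exact h2

/-- the invariant -/
noncomputable def psi (v : ℚ) (E : Bundle k S) : ℤ := (val E.cov (v + 2)).1 - (val E.cov v).1

lemma psi_exact (H : Hyp) {E' E E'' : Bundle k S} (h : IsExact E' E E'') (v : ℚ) :
    psi v E = psi v E' + psi v E'' := by
  unfold psi
  rw [val_add H (cov_exact h), val_add H (cov_exact h)]
  simp only [Prod.fst_add]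
  ring

lemma psi_pull (H : Hyp) {S' : Subdiv} (hS : S.pts ⊆ S'.pts) (E : Bundle k S) (v : ℚ) :
    psi v (E.pull hS) = psi v E := by
  unfold psi
  rw [val_pull H, val_pull H]

lemma psi_twist (H : Hyp) {a : PL S} {E F : Bundle k S} (h : IsTwist a E F) (v : ℚ) :
    psi v F = psi v E := by
  obtain ⟨l, r, hv⟩ := H.c.1 S v
  unfold psi
  rw [val_twist H h hv, val_twist H h (adm_add hv), dd_per a hv, del_per H E.cov v]
  ring

end

/-- the points -/
def vj (j : ℕ) : ℚ := 1 / (2 * j + 2)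

/-- the homomorphism on the free group -/
noncomputable def psiF (k : Type) [Field k] :
    FreeAbelianGroup (Σ S : Subdiv, Bundle k S) →+ (ℕ → ℤ) :=
  FreeAbelianGroup.lift fun p j => psi (vj j) p.2

lemma psiF_of (k : Type) [Field k] (S : Subdiv) (E : Bundle k S) (j : ℕ) :
    psiF k (.of ⟨S, E⟩) j = psi (vj j) E := by
  simp [psiF]

lemma psiF_rel (H : Hyp) (k : Type) [Field k] (z) (hz : W633.LT.Rel k z) : psiF k z = 0 := by
  cases hz with
  | exact E' E E'' h =>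
    funext j
    rw [map_sub, map_sub, Pi.sub_apply, Pi.sub_apply, psiF_of, psiF_of, psiF_of,
      psi_exact H h]
    simp
  | pull hS E =>
    funext j
    rw [map_sub, Pi.sub_apply, psiF_of, psiF_of, psi_pull H]
    simp
  | twist a E F h =>
    funext j
    rw [map_sub, Pi.sub_apply, psiF_of, psiF_of, psi_twist H h]
    simp

/-- the class of a bundle -/
noncomputable def cls (k : Type) [Field k] (z : FreeAbelianGroup (Σ S : Subdiv, Bundle k S)) :
    K0log k := (QuotientAddGroup.mk z : _ ⧸ AddSubgroup.closure {z | W633.LT.Rel k z})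

/-- the homomorphism on `K0log` -/
lemma exists_psiK (H : Hyp) (k : Type) [Field k] :
    ∃ f : K0log k →+ (ℕ → ℤ), ∀ z, f (cls k z) = psiF k z := by
  refine ⟨QuotientAddGroup.lift (AddSubgroup.closure {z | W633.LT.Rel k z}) (psiF k) ?_, fun z => rfl⟩
  rw [AddSubgroup.closure_le]
  intro z hz
  exact psiF_rel H k z hz

lemma exists_lift {S : Subdiv} (fn : ℚ → ℚ)
    (h : ∀ x : Chart S, ∃ m : ℤ × ℤ, ∀ q, x.1.l ≤ q → q ≤ x.1.r → fn q = m.1 * q + m.2) :
    ∃ m, IsLift S fn m := by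
  classical
  refine ⟨fun l r => if h : ∃ m : ℤ × ℤ, ∀ q, l ≤ q → q ≤ r → fn q = m.1 * q + m.2
    then h.choose else 0, fun x => ?_⟩
  have hx := h x
  simp only [hx, dif_pos]
  exact hx.choose_spec

lemma vj_den (j : ℕ) : (vj j).den = 2 * j + 2 := by
  have : vj j = ((2 * j + 2 : ℕ) : ℚ)⁻¹ := by
    unfold vj; push_cast; rw [one_div]
  rw [this, Rat.inv_natCast_den_of_pos (by omega)]

lemma exists_bundle (H : Hyp) (k : Type) [Field k] (i : ℕ) :
    ∃ (S : Subdiv) (E : Bundle k S), ∀ j, psi (vj j) E = if j = i then 2 else 0 := by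
  obtain ⟨S, fn, hper, haff, htent⟩ := H.t i
  obtain ⟨m, hm⟩ := exists_lift fn haff
  obtain ⟨m', hm'⟩ := exists_lift (S := S) (fun q => fn (q + 2)) (by
    intro x
    obtain ⟨m0, h0⟩ := haff (ivl (l := x.1.l + 2) (r := x.1.r + 2) (by linarith [x.2.1])
      (fun q hq hq' => x.2.2 (q - 2) ((pts_sub S q).2 hq)
        ⟨by linarith [hq'.1], by linarith [hq'.2]⟩))
    refine ⟨(m0.1, m0.2 + 2 * m0.1), fun q h1 h2 => ?_⟩
    have := h0 (q + 2) (by show x.1.l + 2 ≤ q + 2; linarith)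
      (by show q + 2 ≤ x.1.r + 2; linarith)
    simp only [this]
    push_cast
    ring)
  obtain ⟨E, L, L', hL, hL', hex⟩ := H.x k S fn m m' hper hm hm'
  refine ⟨S, E, fun j => ?_⟩
  have hval : ∀ v l r, Adm S v l r →
      (val E.cov v).1 = ((m' l v).1 - (m' v r).1) / v.den := by
    intro v l r h
    obtain ⟨N, φ, hN⟩ := H.r1 k S L v l r h
    obtain ⟨N', φ', hN'⟩ := H.r1 k S L' v l r h
    have w1 := (H.w k S fn m L 0 1 v l r h N φ hm (Or.inl rfl) hL hN).2
    have w2 := (H.w k S _ m' L' 1 0 v l r h N' φ' hm' (Or.inr rfl) hL' hN').2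
    rw [val_add H hex v, val_fib H h hN, val_fib H h hN']
    show N.toFam.e + N'.toFam.e = _
    rw [w1, w2]
    ring
  -- the point `vj j`
  have h0 : (val E.cov (vj j)).1 = 0 := by
    obtain ⟨l, r, h⟩ := H.c.1 S (vj j)
    rw [hval _ _ _ h]
    have ht := htent j 1 (vj j + 2) (l + 2) (r + 2) le_rfl (by simp [vj])
    have k1 := lift_left hm' h
    have k2 := lift_right hm' h
    have ht2 := ht (adm_add h) ((m' l (vj j)).1, (m' l (vj j)).2 - 2 * (m' l (vj j)).1)
      ((m' (vj j) r).1, (m' (vj j) r).2 - 2 * (m' (vj j) r).1)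
      (fun q h1 h2 => by
        have := k1 (q - 2) (by linarith) (by linarith)
        simp only [sub_add_cancel] at this
        rw [this]; push_cast; ring)
      (fun q h1 h2 => by
        have := k2 (q - 2) (by linarith) (by linarith)
        simp only [sub_add_cancel] at this
        rw [this]; push_cast; ring)
    simp only [one_ne_zero, and_false, if_false] at ht2
    rw [ht2, Int.zero_ediv]
  have h1 : (val E.cov (vj j + 2)).1 = if j = i then 2 else 0 := by
    obtain ⟨l, r, h⟩ := H.c.1 S (vj j + 2)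
    rw [hval _ _ _ h]
    have ht := htent j 0 (vj j) (l - 2) (r - 2) (by norm_num) (by simp [vj])
    have k1 := lift_left hm' h
    have k2 := lift_right hm' h
    have ht2 := ht (adm_sub h)
      ((m' l (vj j + 2)).1, (m' l (vj j + 2)).2 + 2 * (m' l (vj j + 2)).1)
      ((m' (vj j + 2) r).1, (m' (vj j + 2) r).2 + 2 * (m' (vj j + 2) r).1)
      (fun q h1 h2 => by
        have := k1 (q + 2) (by linarith) (by linarith)
        have e4 : q + 2 + 2 = q + 4 := by ring
        simp only [e4, hper] at this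
        rw [this]; push_cast; ring)
      (fun q h1 h2 => by
        have := k2 (q + 2) (by linarith) (by linarith)
        have e4 : q + 2 + 2 = q + 4 := by ring
        simp only [e4, hper] at this
        rw [this]; push_cast; ring)
    simp only [and_true] at ht2
    rw [ht2]
    have hden : (vj j + 2).den = 2 * j + 2 := by
      rw [← vj_den j]; exact Rat.add_ofNat_den (vj j) 2
    rw [hden]
    by_cases hj : j = i
    · subst hj
      rw [if_pos rfl, if_pos rfl]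
      push_cast
      exact Int.mul_ediv_cancel _ (by positivity)
    · rw [if_neg hj, if_neg hj, Int.zero_ediv]
  unfold psi
  rw [h0, h1, sub_zero]

theorem lg_main (H : Hyp) (k : Type) [Field k] :
    ¬ Module.Finite ℚ (TensorProduct ℤ ℚ (K0log k)) := by
  intro hfin
  obtain ⟨f, hf⟩ := exists_psiK H k
  choose S E hE using fun i => exists_bundle H k i
  let c : (ℕ → ℤ) →+ (ℕ → ℚ) := AddMonoidHom.compLeft (Int.castAddHom ℚ) ℕ
  let g : K0log k →ₗ[ℤ] (ℕ → ℚ) := (c.comp f).toIntLinearMap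
  let G : TensorProduct ℤ ℚ (K0log k) →ₗ[ℚ] (ℕ → ℚ) := g.liftBaseChange ℚ
  let e : ℕ → TensorProduct ℤ ℚ (K0log k) := fun i =>
    TensorProduct.tmul ℤ (1 : ℚ) (cls k (.of ⟨S i, E i⟩))
  have hG : ∀ i j, G (e i) j = if j = i then 2 else 0 := by
    intro i j
    have : G (e i) = g (cls k (.of ⟨S i, E i⟩)) := by
      simp only [G, e]
      rw [LinearMap.liftBaseChange_tmul, one_smul]
    rw [this]
    show ((f (cls k (.of ⟨S i, E i⟩)) j : ℤ) : ℚ) = _
    rw [hf, psiF_of, hE]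
    split_ifs <;> simp
  refine Module.Finite.not_linearIndependent_of_infinite (R := ℚ) e ?_
  refine LinearIndependent.of_comp G ?_
  rw [linearIndependent_iff']
  intro s a ha j hj
  have h1 := congrFun ha j
  simp only [Finset.sum_apply, Pi.smul_apply, Function.comp_apply, hG, smul_eq_mul,
    Pi.zero_apply] at h1
  simp only [mul_ite, mul_zero, Finset.sum_ite_eq, hj, if_true] at h1
  linarith

/-- the final assembly -/
theorem lg_fin (hA : FamAdd) (hS : FamStab) (hT : FamTwist) (hG : MGood) (hM : MToFam)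
    (r1 : RExist) (r2 : RExact) (r3 : RIndep) (r4 : RTwist) (r5 : RChain) (w : WVal)
    (x : XExist) (t : Tent) (c : Comb) :
    ∀ (k : Type) [Field k], ¬ Module.Finite ℚ (TensorProduct ℤ ℚ (K0log k)) := fun k _ =>
  lg_main ⟨hA, hS, hT, hG, hM, r1, r2, r3, r4, r5, w, x, t, c⟩ k

end Pool.Agent.W135.LG
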